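/-!
# Kuratowski subgraphs of the self-complementary graphs on nine vertices
-/

set_option autoImplicit false

namespace Pool.Agent.P8H53.K9

/-- the certificates: `false` for `K₃,₃` (nine walks), `true` for `K₅` (ten walks) -/
def patsA : List (Bool × List (List Nat)) :=
  [(true, [[1, 8], [1, 3], [1, 5], [1, 7], [8, 3], [8, 5], [8, 7], [3, 5], [3, 7], [5, 7]]),
   (true, [[0, 8], [0, 2], [0, 6], [0, 4], [8, 2], [8, 6], [8, 4], [2, 6], [2, 4], [6, 4]]),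
   (false, [[3, 7, 0], [3, 8, 5], [3, 4], [6, 0], [6, 5], [6, 4], [2, 0], [2, 1, 5], [2, 4]]),
   (false, [[2, 3], [2, 7], [2, 0, 5, 4], [8, 3], [8, 7], [8, 1, 4], [6, 3], [6, 7], [6, 4]]),
   (true, [[5, 8], [5, 3], [5, 7], [5, 4, 0, 1], [8, 3], [8, 7], [8, 1], [3, 2, 6, 7], [3, 1], [7, 1]]),
   (false, [[6, 8], [6, 7], [6, 3], [1, 4, 8], [1, 7], [1, 0, 5, 3], [2, 8], [2, 7], [2, 3]]),
   (false, [[3, 4], [3, 6], [3, 7, 2], [1, 4], [1, 5, 6], [1, 2], [8, 4], [8, 6], [8, 2]]),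
   (false, [[4, 7], [4, 3], [4, 8], [1, 7], [1, 3], [1, 6, 8], [0, 7], [0, 3], [0, 8]]),
   (false, [[4, 8], [4, 5, 1], [4, 7], [6, 8], [6, 1], [6, 7], [0, 8], [0, 1], [0, 3, 7]]),
   (false, [[4, 6], [4, 3], [4, 2], [0, 6], [0, 3], [0, 2], [1, 6], [1, 8, 3], [1, 2]]),
   (false, [[3, 7], [3, 0], [3, 8, 1], [4, 7], [4, 2, 0], [4, 5, 1], [6, 7], [6, 0], [6, 1]]),
   (false, [[2, 7], [2, 1], [2, 6, 3], [4, 0, 7], [4, 1], [4, 3], [5, 7], [5, 8, 1], [5, 3]]),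
   (false, [[2, 0], [2, 1], [2, 6, 3], [4, 0], [4, 1], [4, 3], [8, 7, 0], [8, 1], [8, 3]]),
   (true, [[7, 8], [7, 1], [7, 5], [7, 4, 3], [8, 1], [8, 5], [8, 3], [1, 6, 2, 5], [1, 3], [5, 3]]),
   (false, [[1, 6], [1, 8], [1, 0, 4], [7, 6], [7, 8], [7, 4], [5, 2, 6], [5, 8], [5, 4]]),
   (true, [[0, 6], [0, 5, 1, 4], [0, 8], [0, 2], [6, 4], [6, 8], [6, 7, 2], [4, 8], [4, 2], [8, 2]]),
   (true, [[4, 8], [4, 2], [4, 3, 0], [4, 6], [8, 2], [8, 0], [8, 6], [2, 0], [2, 5, 6], [0, 6]]),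
   (false, [[4, 1, 7], [4, 3, 6], [4, 8], [5, 7], [5, 6], [5, 0, 8], [2, 7], [2, 6], [2, 8]]),
   (false, [[1, 6], [1, 3], [1, 7, 4], [8, 6], [8, 0, 3], [8, 4], [5, 2, 6], [5, 3], [5, 4]])]

/-- which certificate is used -/
def idxA : List Nat :=
  [0, 0, 2, 3, 0, 0, 2, 10, 11, 4, 12, 3, 13, 4, 9, 14, 6, 5, 6, 15, 7, 8, 16, 8, 17, 5, 1, 1,
   7, 18, 1, 1]

/-- the certificates: `false` for `K₃,₃` (nine walks), `true` for `K₅` (ten walks) -/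
def patsB : List (Bool × List (List Nat)) :=
  [(true, [[3, 5], [3, 1], [3, 7], [3, 8], [5, 1], [5, 7], [5, 8], [1, 7], [1, 8], [7, 8]]),
   (false, [[1, 5], [1, 3], [1, 4], [7, 8, 5], [7, 3], [7, 4], [6, 5], [6, 3], [6, 4]]),
   (false, [[6, 7], [6, 1], [6, 4], [3, 7], [3, 1], [3, 4], [5, 8, 7], [5, 1], [5, 4]]),
   (false, [[2, 6], [2, 0], [2, 1], [3, 6], [3, 0], [3, 8, 1], [4, 6], [4, 0], [4, 1]]),
   (false, [[0, 2], [0, 1], [0, 4], [6, 2], [6, 1], [6, 4], [3, 2], [3, 8, 1], [3, 4]]),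
   (false, [[0, 3], [0, 2], [0, 5], [1, 8, 3], [1, 2], [1, 5], [7, 3], [7, 2], [7, 5]]),
   (false, [[5, 7], [5, 0], [5, 3], [1, 7], [1, 0], [1, 8, 3], [2, 7], [2, 0], [2, 3]]),
   (false, [[1, 2], [1, 5], [1, 7], [3, 0, 2], [3, 5], [3, 7], [8, 2], [8, 5], [8, 7]]),
   (false, [[7, 8], [7, 1], [7, 3], [0, 8], [0, 1], [0, 2, 3], [5, 8], [5, 1], [5, 3]]),
   (false, [[0, 8, 2], [0, 3], [0, 4], [6, 2], [6, 3], [6, 4], [1, 2], [1, 3], [1, 4]]),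
   (false, [[2, 8, 0], [2, 6], [2, 3], [4, 0], [4, 6], [4, 3], [1, 0], [1, 6], [1, 3]]),
   (false, [[5, 7], [5, 0], [5, 1], [3, 7], [3, 0], [3, 1], [2, 7], [2, 8, 0], [2, 1]]),
   (false, [[2, 7], [2, 8, 0], [2, 3], [5, 7], [5, 0], [5, 3], [1, 7], [1, 0], [1, 3]]),
   (false, [[0, 6], [0, 8], [0, 4], [7, 5, 6], [7, 8], [7, 4], [2, 6], [2, 8], [2, 4]]),
   (false, [[2, 4], [2, 8], [2, 6], [0, 4], [0, 8], [0, 6], [5, 4], [5, 8], [5, 7, 6]]),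
   (false, [[1, 3], [1, 6], [1, 7], [4, 3], [4, 8, 6], [4, 7], [5, 3], [5, 6], [5, 7]]),
   (false, [[5, 7], [5, 4], [5, 1], [6, 7], [6, 8, 4], [6, 1], [3, 7], [3, 4], [3, 1]]),
   (false, [[5, 6], [5, 3], [5, 1], [8, 6], [8, 3], [8, 1], [7, 4, 6], [7, 3], [7, 1]]),
   (false, [[4, 8], [4, 6, 7], [4, 5], [1, 8], [1, 7], [1, 5], [3, 8], [3, 7], [3, 5]]),
   (false, [[0, 6], [0, 3], [0, 4], [2, 6], [2, 1, 3], [2, 4], [8, 6], [8, 3], [8, 4]]),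
   (false, [[0, 6], [0, 4], [0, 1, 3], [8, 6], [8, 4], [8, 3], [2, 6], [2, 4], [2, 3]]),
   (false, [[3, 4], [3, 6], [3, 0, 2], [1, 4], [1, 6], [1, 2], [8, 4], [8, 6], [8, 2]]),
   (false, [[1, 4], [1, 6], [1, 0], [8, 4], [8, 6], [8, 0], [3, 4], [3, 6], [3, 2, 0]]),
   (false, [[5, 6], [5, 0], [5, 2], [7, 4, 6], [7, 0], [7, 2], [8, 6], [8, 0], [8, 2]]),
   (false, [[6, 8], [6, 7], [6, 4, 5], [2, 8], [2, 7], [2, 5], [0, 8], [0, 7], [0, 5]]),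
   (false, [[6, 7], [6, 4], [6, 0], [5, 8, 7], [5, 4], [5, 0], [2, 7], [2, 4], [2, 0]]),
   (false, [[4, 6], [4, 2], [4, 7], [0, 6], [0, 2], [0, 7], [5, 6], [5, 2], [5, 8, 7]]),
   (false, [[6, 7], [6, 2], [6, 8, 4], [0, 7], [0, 2], [0, 4], [5, 7], [5, 2], [5, 4]]),
   (false, [[4, 8, 6], [4, 7], [4, 2], [5, 6], [5, 7], [5, 2], [0, 6], [0, 7], [0, 2]]),
   (false, [[1, 4], [1, 6], [1, 8], [3, 4], [3, 6], [3, 8], [5, 7, 4], [5, 6], [5, 8]]),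
   (false, [[4, 5, 7], [4, 1], [4, 3], [6, 7], [6, 1], [6, 3], [8, 7], [8, 1], [8, 3]]),
   (false, [[3, 1, 2], [3, 0], [3, 8], [5, 2], [5, 0], [5, 8], [7, 2], [7, 0], [7, 8]]),
   (false, [[5, 8], [5, 0], [5, 2], [3, 8], [3, 1, 0], [3, 2], [7, 8], [7, 0], [7, 2]]),
   (false, [[5, 6], [5, 8, 7], [5, 0], [4, 6], [4, 7], [4, 0], [2, 6], [2, 7], [2, 0]]),
   (false, [[1, 2], [1, 8, 3], [1, 6], [4, 2], [4, 3], [4, 6], [0, 2], [0, 3], [0, 6]]),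
   (false, [[1, 7], [1, 8, 3], [1, 2], [0, 7], [0, 3], [0, 2], [5, 7], [5, 3], [5, 2]]),
   (false, [[5, 7], [5, 2], [5, 1], [0, 7], [0, 2], [0, 1], [3, 7], [3, 2], [3, 8, 1]]),
   (false, [[3, 4], [3, 5], [3, 1], [7, 4], [7, 8, 5], [7, 1], [6, 4], [6, 5], [6, 1]]),
   (false, [[7, 1], [7, 8, 5], [7, 6], [4, 1], [4, 5], [4, 6], [3, 1], [3, 5], [3, 6]]),
   (false, [[0, 6], [0, 2], [0, 1], [3, 6], [3, 2], [3, 8, 1], [4, 6], [4, 2], [4, 1]]),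
   (false, [[4, 6], [4, 5], [4, 0], [2, 6], [2, 5], [2, 0], [7, 6], [7, 8, 5], [7, 0]]),
   (false, [[0, 3], [0, 6], [0, 8, 2], [1, 3], [1, 6], [1, 2], [4, 3], [4, 6], [4, 2]]),
   (false, [[0, 1], [0, 8, 2], [0, 6], [4, 1], [4, 2], [4, 6], [3, 1], [3, 2], [3, 6]]),
   (false, [[1, 5], [1, 0], [1, 3], [7, 5], [7, 0], [7, 3], [2, 5], [2, 8, 0], [2, 3]]),
   (false, [[1, 2], [1, 3], [1, 7], [0, 8, 2], [0, 3], [0, 7], [5, 2], [5, 3], [5, 7]]),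
   (false, [[3, 6], [3, 1], [3, 5], [7, 6], [7, 1], [7, 5], [4, 8, 6], [4, 1], [4, 5]]),
   (false, [[5, 6], [5, 7], [5, 1], [4, 8, 6], [4, 7], [4, 1], [3, 6], [3, 7], [3, 1]]),
   (false, [[6, 7], [6, 8, 4], [6, 0], [5, 7], [5, 4], [5, 0], [2, 7], [2, 4], [2, 0]]),
   (false, [[2, 6], [2, 7], [2, 0], [4, 8, 6], [4, 7], [4, 0], [5, 6], [5, 7], [5, 0]]),
   (false, [[0, 3], [0, 5], [0, 4, 1], [2, 6, 3], [2, 7, 5], [2, 1], [8, 3], [8, 5], [8, 1]]),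
   (false, [[5, 0], [5, 8], [5, 7, 2], [1, 0], [1, 8], [1, 4, 2], [3, 6, 0], [3, 8], [3, 2]]),
   (false, [[3, 4, 0], [3, 8], [3, 2], [1, 0], [1, 8], [1, 6, 2], [7, 0], [7, 8], [7, 5, 2]]),
   (false, [[3, 0], [3, 8], [3, 4, 2], [7, 0], [7, 8], [7, 5, 2], [1, 6, 0], [1, 8], [1, 2]]),
   (false, [[3, 4], [3, 6], [3, 5, 7], [1, 4], [1, 6], [1, 7], [8, 0, 4], [8, 2, 6], [8, 7]]),
   (false, [[8, 5], [8, 2, 4], [8, 0, 6], [1, 5], [1, 4], [1, 6], [3, 7, 5], [3, 4], [3, 6]]),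
   (true, [[2, 5], [2, 0], [2, 7], [2, 8], [5, 0], [5, 7], [5, 8], [0, 7], [0, 8], [7, 8]]),
   (true, [[4, 8], [4, 1], [4, 6], [4, 3], [8, 1], [8, 6], [8, 3], [1, 6], [1, 3], [6, 3]]),
   (false, [[7, 2, 6], [7, 4], [7, 1], [5, 6], [5, 0, 4], [5, 3, 1], [8, 6], [8, 4], [8, 1]]),
   (false, [[4, 8], [4, 2], [4, 6, 0], [1, 8], [1, 2], [1, 5, 0], [3, 8], [3, 7, 2], [3, 0]]),
   (false, [[4, 8], [4, 0, 7], [4, 5], [6, 8], [6, 7], [6, 2, 5], [3, 8], [3, 1, 7], [3, 5]]),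
   (false, [[3, 7, 0], [3, 2], [3, 8], [1, 0], [1, 5, 2], [1, 8], [4, 6, 0], [4, 2], [4, 8]]),
   (false, [[8, 0], [8, 4, 1], [8, 6, 3], [7, 2, 0], [7, 1], [7, 3], [5, 0], [5, 1], [5, 3]]),
   (true, [[2, 8], [2, 4], [2, 6], [2, 0], [8, 4], [8, 6], [8, 0], [4, 6], [4, 0], [6, 0]]),
   (false, [[3, 4, 8], [3, 5], [3, 7], [2, 8], [2, 5], [2, 0, 7], [1, 6, 8], [1, 5], [1, 7]]),
   (false, [[4, 7], [4, 0, 2], [4, 3, 5], [6, 1, 7], [6, 2], [6, 5], [8, 7], [8, 2], [8, 5]]),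
   (false, [[7, 8], [7, 1, 4], [7, 6], [5, 8], [5, 4], [5, 3, 6], [0, 8], [0, 4], [0, 2, 6]]),
   (false, [[4, 2, 0], [4, 3, 7], [4, 5], [8, 0], [8, 7], [8, 5], [6, 0], [6, 7], [6, 1, 5]]),
   (false, [[3, 5, 0], [3, 2], [3, 6, 4], [8, 0], [8, 2], [8, 4], [1, 0], [1, 7, 2], [1, 4]]),
   (false, [[0, 5, 1], [0, 3], [0, 8], [2, 1], [2, 7, 3], [2, 8], [4, 1], [4, 6, 3], [4, 8]]),
   (false, [[2, 8], [2, 1], [2, 5, 3], [0, 8], [0, 7, 1], [0, 3], [4, 8], [4, 6, 1], [4, 3]]),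
   (false, [[4, 6, 1], [4, 3], [4, 8], [0, 1], [0, 7, 3], [0, 8], [2, 5, 1], [2, 3], [2, 8]]),
   (false, [[4, 7], [4, 1], [4, 0, 5], [8, 7], [8, 1], [8, 5], [6, 2, 7], [6, 3, 1], [6, 5]]),
   (false, [[5, 6], [5, 1], [5, 8, 7], [4, 6], [4, 1], [4, 7], [3, 6], [3, 0, 2, 1], [3, 7]]),
   (false, [[5, 8], [5, 0, 6], [5, 4], [7, 8], [7, 6], [7, 2, 4], [3, 8], [3, 6], [3, 1, 4]]),
   (false, [[4, 5], [4, 0, 7], [4, 3, 1], [8, 5], [8, 7], [8, 1], [6, 2, 5], [6, 7], [6, 1]]),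
   (false, [[3, 5], [3, 0], [3, 8, 1], [2, 5], [2, 0], [2, 1], [7, 4, 6, 5], [7, 0], [7, 1]]),
   (false, [[7, 8], [7, 0, 6], [7, 4], [5, 8], [5, 6], [5, 2, 4], [1, 8], [1, 6], [1, 3, 4]]),
   (false, [[4, 2, 7], [4, 8], [4, 5], [3, 7], [3, 8], [3, 1, 5], [6, 7], [6, 8], [6, 0, 5]]),
   (false, [[4, 7], [4, 8, 6], [4, 2], [5, 7], [5, 6], [5, 2], [0, 7], [0, 6], [0, 3, 1, 2]]),
   (true, [[1, 8], [1, 0, 2, 3], [1, 7], [1, 5], [8, 3], [8, 7], [8, 5], [3, 7], [3, 5], [7, 6, 4, 5]]),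
   (false, [[0, 1], [0, 5], [0, 2], [7, 1], [7, 4, 6, 5], [7, 2], [3, 8, 1], [3, 5], [3, 2]]),
   (false, [[3, 5], [3, 8, 1], [3, 0], [2, 5], [2, 1], [2, 0], [7, 6, 4, 5], [7, 1], [7, 0]]),
   (false, [[4, 0], [4, 7, 5, 6], [4, 1], [2, 8, 0], [2, 6], [2, 1], [3, 0], [3, 6], [3, 1]]),
   (false, [[2, 4, 1], [2, 8], [2, 3], [0, 1], [0, 8], [0, 6, 3], [7, 5, 1], [7, 8], [7, 3]]),
   (false, [[4, 1], [4, 8, 6], [4, 7], [5, 1], [5, 6], [5, 7], [3, 2, 0, 1], [3, 6], [3, 7]]),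
   (false, [[4, 5], [4, 3], [4, 8, 6], [1, 5], [1, 2, 0, 3], [1, 6], [7, 5], [7, 3], [7, 6]]),
   (false, [[2, 6], [2, 0], [2, 1], [3, 6], [3, 0], [3, 5, 7, 1], [4, 8, 6], [4, 0], [4, 1]]),
   (true, [[1, 8], [1, 4], [1, 0, 2, 3], [1, 6], [8, 4], [8, 3], [8, 6], [4, 3], [4, 5, 7, 6], [3, 6]]),
   (false, [[4, 5, 7, 6], [4, 3], [4, 0], [1, 6], [1, 3], [1, 0], [2, 6], [2, 3], [2, 8, 0]]),
   (false, [[6, 5], [6, 8, 4], [6, 0], [2, 5], [2, 4], [2, 3, 1, 0], [7, 5], [7, 4], [7, 0]]),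
   (false, [[6, 7], [6, 4], [6, 3], [5, 0, 2, 7], [5, 4], [5, 3], [1, 7], [1, 4], [1, 8, 3]]),
   (false, [[0, 1], [0, 2], [0, 4], [3, 8, 1], [3, 2], [3, 4], [6, 1], [6, 2], [6, 5, 7, 4]]),
   (false, [[7, 8, 5], [7, 4], [7, 2], [6, 5], [6, 4], [6, 2], [0, 5], [0, 4], [0, 1, 3, 2]]),
   (false, [[2, 7], [2, 1, 3, 0], [2, 4], [6, 7], [6, 0], [6, 4], [5, 8, 7], [5, 0], [5, 4]]),
   (false, [[3, 4, 2], [3, 7, 5], [3, 0], [8, 2], [8, 5], [8, 0], [1, 2], [1, 5], [1, 6, 0]]),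
   (false, [[7, 3], [7, 8], [7, 4, 6, 5], [1, 3], [1, 0, 8], [1, 5], [2, 3], [2, 8], [2, 5]]),
   (false, [[0, 8], [0, 3], [0, 7], [5, 8], [5, 3], [5, 4, 6, 7], [1, 2, 8], [1, 3], [1, 7]]),
   (false, [[6, 5], [6, 3], [6, 8, 4], [1, 5], [1, 2, 0, 3], [1, 4], [7, 5], [7, 3], [7, 4]]),
   (false, [[0, 8], [0, 5], [0, 6], [4, 8], [4, 5], [4, 1, 3, 6], [7, 2, 8], [7, 5], [7, 6]]),
   (false, [[4, 0], [4, 8], [4, 3, 5], [2, 0], [2, 8], [2, 5], [6, 1, 7, 0], [6, 8], [6, 5]]),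
   (false, [[1, 7], [1, 0, 2, 3], [1, 5], [4, 7], [4, 3], [4, 6, 5], [8, 7], [8, 3], [8, 5]]),
   (true, [[4, 3], [4, 5, 8], [4, 1], [4, 6], [3, 8], [3, 1], [3, 6], [8, 1], [8, 7, 6], [1, 6]]),
   (true, [[4, 6], [4, 7, 8], [4, 3], [4, 1], [6, 5, 8], [6, 3], [6, 1], [8, 3], [8, 1], [3, 1]]),
   (false, [[2, 3], [2, 0, 1, 5], [2, 4], [7, 3], [7, 8, 5], [7, 4], [6, 3], [6, 5], [6, 4]]),
   (true, [[7, 8], [7, 0], [7, 2], [7, 5], [8, 1, 0], [8, 3, 2], [8, 5], [0, 2], [0, 5], [2, 5]]),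
   (false, [[5, 0], [5, 6], [5, 8, 7], [2, 1, 3, 0], [2, 6], [2, 7], [4, 0], [4, 6], [4, 7]]),
   (true, [[5, 7], [5, 2], [5, 0], [5, 8], [7, 2], [7, 0], [7, 8], [2, 6, 0], [2, 1, 8], [0, 3, 8]]),
   (true, [[3, 1], [3, 7], [3, 5], [3, 0, 8], [1, 7], [1, 5], [1, 2, 8], [7, 5], [7, 8], [5, 8]]),
   (true, [[8, 0, 1], [8, 5], [8, 2, 3], [8, 7], [1, 5], [1, 3], [1, 7], [5, 3], [5, 7], [3, 7]]),
   (false, [[2, 3], [2, 8, 0], [2, 6], [1, 3], [1, 0], [1, 6], [4, 3], [4, 0], [4, 7, 5, 6]]),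
   (false, [[1, 3], [1, 5], [1, 2], [7, 3], [7, 4, 6, 5], [7, 2], [0, 3], [0, 5], [0, 8, 2]]),
   (false, [[2, 3], [2, 7], [2, 8], [1, 3], [1, 7], [1, 0, 8], [5, 3], [5, 4, 6, 7], [5, 8]]),
   (false, [[5, 7], [5, 3, 6, 2], [5, 0], [8, 7], [8, 2], [8, 0], [1, 7], [1, 2], [1, 4, 0]]),
   (false, [[1, 2], [1, 3], [1, 6], [0, 8, 2], [0, 3], [0, 6], [4, 2], [4, 3], [4, 5, 7, 6]]),
   (true, [[0, 4], [0, 8], [0, 2], [0, 6], [4, 7, 8], [4, 2], [4, 3, 6], [8, 2], [8, 5, 6], [2, 6]]),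
   (true, [[6, 0], [6, 4], [6, 7, 8], [6, 2], [0, 4], [0, 8], [0, 2], [4, 5, 8], [4, 2], [8, 2]]),
   (true, [[0, 2], [0, 5], [0, 8], [0, 6, 3, 7], [2, 4, 1, 5], [2, 8], [2, 7], [5, 8], [5, 7], [8, 7]]),
   (true, [[0, 8], [0, 2], [0, 7], [0, 4, 5], [8, 2], [8, 7], [8, 5], [2, 6, 7], [2, 5], [7, 5]]),
   (false, [[0, 6], [0, 1, 3, 2], [0, 8], [7, 6], [7, 2], [7, 8], [5, 4, 6], [5, 2], [5, 8]]),
   (true, [[8, 4, 7], [8, 1], [8, 3], [8, 6, 5], [7, 1], [7, 3], [7, 5], [1, 3], [1, 5], [3, 5]]),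
   (true, [[1, 3], [1, 7], [1, 5], [1, 8], [3, 7], [3, 5], [3, 8], [7, 5], [7, 6, 8], [5, 4, 8]]),
   (true, [[4, 6], [4, 8], [4, 1], [4, 5, 3], [6, 8], [6, 7, 1], [6, 3], [8, 1], [8, 3], [1, 3]]),
   (true, [[4, 8], [4, 3], [4, 6], [4, 7, 1], [8, 3], [8, 6], [8, 1], [3, 5, 6], [3, 1], [6, 1]]),
   (false, [[8, 1, 0], [8, 4], [8, 3, 2], [7, 0], [7, 6, 4], [7, 2], [5, 0], [5, 4], [5, 2]]),
   (true, [[4, 8], [4, 2, 1], [4, 6], [4, 3], [8, 1], [8, 6], [8, 3], [1, 6], [1, 3], [6, 0, 3]]),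
   (true, [[0, 7, 2], [0, 6], [0, 4], [0, 3, 8], [2, 6], [2, 4], [2, 1, 8], [6, 4], [6, 8], [4, 8]]),
   (true, [[3, 0, 8], [3, 4], [3, 1], [3, 6], [8, 4], [8, 2, 1], [8, 6], [4, 1], [4, 6], [1, 6]]),
   (true, [[4, 6], [4, 8], [4, 1], [4, 3], [6, 8], [6, 1], [6, 3], [8, 0, 1], [8, 2, 3], [1, 3]]),
   (true, [[2, 8], [2, 6], [2, 0], [2, 1, 4], [8, 6], [8, 0], [8, 4], [6, 3, 0], [6, 4], [0, 4]]),
   (true, [[6, 8], [6, 4], [6, 1, 2], [6, 0], [8, 4], [8, 2], [8, 0], [4, 2], [4, 3, 0], [2, 0]]),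
   (true, [[4, 8], [4, 1, 0], [4, 2], [4, 6], [8, 0], [8, 2], [8, 6], [0, 2], [0, 6], [2, 3, 6]]),
   (true, [[0, 2], [0, 5], [0, 7], [0, 8], [2, 5], [2, 7], [2, 8], [5, 7], [5, 6, 8], [7, 4, 8]]),
   (true, [[0, 2], [0, 8], [0, 7], [0, 5], [2, 8], [2, 7], [2, 5], [8, 6, 7], [8, 4, 5], [7, 3, 5]]),
   (true, [[1, 5], [1, 3], [1, 8], [1, 6, 7], [5, 4, 3], [5, 8], [5, 7], [3, 8], [3, 7], [8, 7]]),
   (true, [[3, 5], [3, 8], [3, 6, 7], [3, 1], [5, 8], [5, 7], [5, 4, 1], [8, 7], [8, 1], [7, 1]]),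
   (false, [[5, 8], [5, 3], [5, 4], [1, 8], [1, 2, 0, 3], [1, 4], [7, 8], [7, 3], [7, 6, 4]]),
   (false, [[7, 3], [7, 8, 5], [7, 6], [1, 0, 2, 3], [1, 5], [1, 6], [4, 3], [4, 5], [4, 6]]),
   (false, [[0, 3], [0, 2], [0, 4], [1, 8, 3], [1, 2], [1, 4], [6, 3], [6, 2], [6, 5, 7, 4]]),
   (true, [[3, 8], [3, 7], [3, 1], [3, 0, 5], [8, 7], [8, 1], [8, 5], [7, 4, 1], [7, 5], [1, 5]]),
   (true, [[1, 6], [1, 8, 3, 0], [1, 2], [1, 4], [6, 0], [6, 2], [6, 7, 5, 4], [0, 2], [0, 4], [2, 4]]),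
   (true, [[5, 7], [5, 2, 1], [5, 3], [5, 8], [7, 1], [7, 4, 3], [7, 8], [1, 3], [1, 8], [3, 8]]),
   (true, [[7, 8], [7, 2], [7, 5], [7, 1, 0], [8, 2], [8, 5], [8, 0], [2, 3, 5], [2, 0], [5, 0]]),
   (false, [[0, 1], [0, 8, 2], [0, 5], [7, 4, 1], [7, 2], [7, 5], [6, 3, 1], [6, 2], [6, 5]]),
   (true, [[7, 8], [7, 4, 3, 2], [7, 5], [7, 0], [8, 2], [8, 5], [8, 0], [2, 5], [2, 0], [5, 1, 0]]),
   (true, [[3, 6], [3, 7, 4], [3, 1], [3, 8], [6, 4], [6, 5, 1], [6, 8], [4, 1], [4, 8], [1, 8]]),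
   (false, [[4, 8, 6, 3, 2], [4, 5], [4, 1], [0, 2], [0, 5], [0, 1], [7, 2], [7, 5], [7, 1]]),
   (false, [[5, 7], [5, 4], [5, 0], [2, 7], [2, 4], [2, 1, 3, 0], [6, 7], [6, 8, 4], [6, 0]]),
   (false, [[0, 2], [0, 1], [0, 7], [5, 2], [5, 1], [5, 7], [3, 2], [3, 4, 8, 6, 1], [3, 7]]),
   (false, [[0, 5], [0, 1, 8], [0, 7], [4, 6, 5], [4, 8], [4, 7], [2, 5], [2, 3, 8], [2, 7]]),
   (false, [[0, 4], [0, 7], [0, 1, 3, 2], [5, 4], [5, 7], [5, 2], [6, 8, 4], [6, 7], [6, 2]]),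
   (true, [[0, 1, 7, 6], [0, 2], [0, 4], [0, 8], [6, 2], [6, 4], [6, 8], [2, 3, 5, 4], [2, 8], [4, 8]])]

/-- which certificate is used -/
def idxB : List Nat :=
  [0, 0, 29, 29, 0, 0, 30, 30, 1, 1, 72, 100, 2, 2, 135, 79, 29, 29, 29, 29, 30, 30, 30, 30, 37,
   37, 3, 4, 38, 38, 3, 4, 0, 0, 5, 6, 0, 0, 5, 6, 1, 1, 72, 80, 38, 38, 90, 79, 49, 71, 49, 6,
   49, 134, 49, 6, 71, 71, 3, 33, 38, 38, 3, 90, 29, 29, 29, 29, 30, 30, 30, 30, 1, 1, 34, 39,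
   2, 2, 34, 39, 29, 29, 29, 29, 30, 30, 30, 30, 102, 102, 3, 4, 101, 101, 3, 4, 138, 50, 5, 50,
   73, 50, 5, 50, 1, 1, 72, 39, 73, 73, 25, 25, 49, 50, 49, 50, 49, 50, 49, 50, 71, 71, 3, 33,
   73, 73, 3, 25, 0, 0, 35, 36, 0, 0, 35, 36, 37, 37, 75, 100, 2, 2, 81, 79, 140, 51, 35, 51,
   74, 51, 35, 51, 37, 37, 75, 4, 74, 74, 40, 4, 0, 0, 5, 6, 0, 0, 5, 6, 31, 32, 75, 80, 31, 32,
   81, 79, 31, 32, 35, 6, 31, 32, 35, 6, 31, 32, 33, 33, 31, 32, 40, 40, 52, 76, 52, 36, 52, 133,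
   52, 36, 76, 76, 26, 26, 2, 2, 34, 136, 52, 51, 52, 51, 52, 51, 52, 51, 76, 76, 26, 4, 74, 74,
   34, 4, 31, 32, 5, 36, 31, 32, 5, 36, 31, 32, 26, 26, 31, 32, 25, 25, 31, 32, 106, 104, 31,
   32, 106, 104, 31, 32, 26, 26, 31, 32, 25, 25, 107, 108, 7, 8, 107, 108, 7, 8, 1, 1, 7, 8, 2,
   2, 7, 8, 53, 53, 53, 53, 53, 53, 53, 53, 9, 10, 64, 64, 9, 10, 65, 65, 11, 12, 7, 8, 11, 12,
   7, 8, 1, 1, 7, 8, 38, 38, 7, 8, 82, 12, 112, 141, 112, 12, 65, 65, 9, 92, 33, 33, 9, 38, 65,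
   65, 54, 54, 54, 54, 54, 54, 54, 54, 1, 1, 72, 103, 2, 2, 66, 66, 13, 13, 13, 13, 14, 14, 14,
   14, 9, 10, 114, 114, 9, 10, 115, 115, 11, 83, 116, 83, 11, 83, 116, 83, 1, 1, 72, 103, 93,
   42, 25, 25, 13, 13, 13, 13, 14, 14, 14, 14, 9, 42, 33, 33, 9, 42, 25, 25, 44, 43, 7, 8, 44,
   43, 7, 8, 37, 37, 7, 8, 2, 2, 7, 8, 44, 109, 64, 64, 44, 88, 117, 117, 37, 10, 64, 64, 96,
   10, 40, 40, 11, 12, 7, 8, 11, 12, 7, 8, 110, 95, 7, 8, 96, 111, 7, 8, 44, 12, 55, 55, 44, 12,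
   55, 55, 105, 92, 33, 33, 96, 111, 40, 40, 94, 43, 94, 143, 94, 43, 66, 66, 41, 95, 26, 26,
   2, 2, 66, 66, 13, 13, 13, 13, 14, 14, 14, 14, 41, 10, 26, 26, 41, 10, 40, 40, 11, 43, 55, 55,
   11, 43, 55, 55, 110, 95, 26, 26, 93, 118, 25, 25, 13, 13, 13, 13, 14, 14, 14, 14, 105, 92,
   26, 26, 93, 118, 25, 25, 15, 15, 97, 84, 16, 16, 85, 87, 17, 17, 17, 17, 18, 18, 18, 18, 15,
   15, 86, 91, 45, 45, 86, 87, 56, 56, 3, 4, 56, 56, 3, 4, 46, 46, 5, 6, 45, 45, 5, 6, 17, 17,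
   17, 17, 18, 18, 18, 18, 57, 57, 48, 6, 45, 45, 86, 6, 57, 57, 3, 80, 121, 121, 3, 90, 46, 46,
   97, 84, 16, 16, 85, 87, 56, 56, 34, 39, 56, 56, 34, 39, 19, 20, 137, 91, 19, 20, 139, 87, 19,
   20, 3, 4, 19, 20, 3, 4, 46, 46, 5, 84, 77, 77, 5, 47, 58, 144, 58, 39, 58, 77, 58, 39, 19,
   20, 48, 48, 19, 20, 47, 47, 19, 20, 3, 39, 19, 20, 3, 39, 15, 15, 35, 36, 16, 16, 35, 36, 17,
   17, 17, 17, 18, 18, 18, 18, 15, 15, 35, 91, 59, 59, 27, 27, 122, 122, 75, 4, 59, 59, 81, 4,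
   119, 119, 5, 6, 120, 120, 5, 6, 17, 17, 17, 17, 18, 18, 18, 18, 57, 57, 35, 6, 59, 59, 27,
   6, 57, 57, 75, 80, 59, 59, 81, 123, 78, 89, 28, 28, 16, 16, 85, 36, 124, 60, 34, 60, 124, 60,
   34, 60, 19, 20, 28, 28, 19, 20, 27, 27, 19, 20, 34, 4, 19, 20, 34, 4, 78, 89, 5, 28, 77, 77,
   5, 36, 58, 60, 58, 60, 58, 60, 58, 60, 19, 20, 28, 28, 19, 20, 27, 27, 19, 20, 125, 148, 19,
   20, 125, 123, 15, 15, 21, 22, 16, 16, 21, 22, 126, 127, 21, 22, 126, 127, 21, 22, 15, 15, 21,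
   22, 45, 45, 21, 22, 9, 10, 21, 22, 9, 10, 21, 22, 11, 12, 61, 61, 11, 12, 61, 61, 68, 67, 61,
   61, 68, 67, 61, 61, 82, 12, 48, 48, 45, 12, 86, 145, 9, 67, 128, 67, 9, 67, 128, 67, 46, 46,
   21, 22, 16, 16, 21, 22, 41, 42, 21, 22, 41, 42, 21, 22, 82, 109, 21, 22, 113, 88, 21, 22, 9,
   10, 21, 22, 9, 10, 21, 22, 11, 46, 97, 84, 11, 98, 47, 47, 68, 42, 68, 130, 68, 42, 68, 130,
   82, 142, 48, 48, 98, 98, 47, 47, 9, 42, 62, 62, 9, 42, 62, 62, 15, 15, 63, 63, 16, 16, 63,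
   63, 69, 70, 63, 63, 69, 70, 63, 63, 15, 15, 99, 99, 44, 88, 27, 27, 69, 10, 69, 99, 69, 10,
   69, 150, 11, 12, 131, 131, 11, 12, 132, 132, 23, 23, 23, 23, 24, 24, 24, 24, 44, 12, 48, 48,
   44, 12, 27, 27, 23, 23, 23, 23, 24, 24, 24, 24, 78, 43, 28, 28, 16, 16, 85, 147, 41, 70, 129,
   70, 41, 70, 129, 70, 78, 89, 28, 28, 113, 88, 27, 27, 41, 10, 62, 62, 41, 10, 62, 62, 11, 43,
   28, 28, 11, 43, 47, 47, 23, 23, 23, 23, 24, 24, 24, 24, 78, 89, 28, 28, 146, 149, 27, 27, 23,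
   23, 23, 23, 24, 24, 24, 24]

end Pool.Agent.P8H53.K9
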