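import Mathlib
import Pool.Agent.P8H53.K9.Data

/-!
# Every self-complementary graph on nine vertices (in normal form) contains a subdivision of
`K₃,₃` or `K₅`
-/

set_option autoImplicit false

namespace Pool.Agent.P8H53.K9

/-- parity -/
def par (i : ℕ) : Bool := i % 2 == 1

/-- the graph number `b < 32` for the complementing permutation `(0 1 2 3 4 5 6 7)` -/
def adjA (b i j : ℕ) : Bool :=
  if i = 8 then xor (b.testBit 4) (par j)
  else if j = 8 then xor (b.testBit 4) (par i)
  else
    let d := (j + 8 - i) % 8
    if d ≤ 4 then xor (b.testBit (d - 1)) (par i) else xor (b.testBit (7 - d)) (par j)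

/-- the graph number `b < 1024` for the complementing permutation `(0 1 2 3)(4 5 6 7)`, `i < j` -/
def adjB0 (b i j : ℕ) : Bool :=
  if j = 8 then xor (if i < 4 then b.testBit 8 else b.testBit 9) (par i)
  else if j < 4 then
    xor (if j - i = 2 then b.testBit 1 else b.testBit 0) (if j - i = 3 then par j else par i)
  else if i < 4 then xor (b.testBit (4 + (j - i) % 4)) (par i)
  else xor (if j - i = 2 then b.testBit 3 else b.testBit 2) (if j - i = 3 then par j else par i)

/-- the graph number `b < 1024` for the complementing permutation `(0 1 2 3)(4 5 6 7)` -/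
def adjB (b i j : ℕ) : Bool := if i < j then adjB0 b i j else adjB0 b j i

/-- the list is a walk -/
def chainOk (H : ℕ → ℕ → Bool) : List ℕ → Bool
  | [] => true
  | [_] => true
  | (a :: b :: l) => H a b && chainOk H (b :: l)

/-- the list is a walk from `u` to `v` of positive length, all vertices are smaller than 9 -/
def walkOk (H : ℕ → ℕ → Bool) (u v : ℕ) (w : List ℕ) : Bool :=
  w.head? == some u && w.getLast? == some v && decide (2 ≤ w.length) && chainOk H w &&
    w.all (fun x => decide (x < 9))

/-- the lists are disjoint -/
def disj (w w' : List ℕ) : Bool := w.all fun x => !(w'.contains x)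

/-- walk number `k` -/
def wk (ws : List (List ℕ)) (k : ℕ) : List ℕ := ws.getD k []

/-- certificate for `K₃,₃` -/
def ok33 (H : ℕ → ℕ → Bool) (ws : List (List ℕ)) : Bool :=
  (List.range 3).all fun i => (List.range 3).all fun j =>
    walkOk H ((wk ws (3 * i)).headD 0) ((wk ws j).getLastD 0) (wk ws (3 * i + j)) &&
    (List.range 3).all fun k => (List.range 3).all fun l =>
      (i == k) || (j == l) || disj (wk ws (3 * i + j)) (wk ws (3 * k + l))

/-- the number of the pair `a < b < 5` -/
def num5 (a b : ℕ) : ℕ := a * (9 - a) / 2 + (b - a - 1)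

/-- the vertex number `a` of `K₅` -/
def root5 (ws : List (List ℕ)) (a : ℕ) : ℕ :=
  if a = 4 then (wk ws 3).getLastD 0 else (wk ws (num5 a (a + 1))).headD 0

/-- certificate for `K₅` -/
def ok5 (H : ℕ → ℕ → Bool) (ws : List (List ℕ)) : Bool :=
  (List.range 5).all fun a => (List.range 5).all fun b =>
    !(decide (a < b)) || (walkOk H (root5 ws a) (root5 ws b) (wk ws (num5 a b)) &&
    (List.range 5).all fun c => (List.range 5).all fun d =>
      !(decide (c < d)) || (a == c) || (a == d) || (b == c) || (b == d) ||
        disj (wk ws (num5 a b)) (wk ws (num5 c d)))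

/-- the graph without loops -/
def strict (H : ℕ → ℕ → Bool) (a b : ℕ) : Bool := a != b && H a b

/-- certificate -/
def ok (H : ℕ → ℕ → Bool) (P : Bool × List (List ℕ)) : Bool :=
  if P.1 then ok5 (strict H) P.2 else ok33 (strict H) P.2

theorem checkA : ∀ b < 32, ok (adjA b) (patsA.getD (idxA.getD b 0) (true, [])) = true := by
  decide +kernel

theorem checkB : ∀ b < 1024, ok (adjB b) (patsB.getD (idxB.getD b 0) (true, [])) = true := by
  decide +kernel

end Pool.Agent.P8H53.K9
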