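import Mathlib

/-!
# A biplanar drawing of `K₉` with exactly one crossing
-/

set_option autoImplicit false

namespace Pool.Agent.P8H53.K9

/-- the rows of the adjacency matrix of the second graph (15 edges) -/
def rowMask (u : Fin 9) : ℕ := ![434, 453, 18, 384, 389, 129, 2, 59, 27] u

/-- the colour of an edge -/
def col (u v : Fin 9) : Fin 2 := if (rowMask u).testBit v.val then 1 else 0

/-- the coordinates in the two planes -/
def crd (i : Fin 2) (u : Fin 9) : ℤ × ℤ :=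
  if i = 0 then ![(2,10),(9,5),(0,10),(11,11),(8,8),(10,1),(7,9),(5,9),(7,5)] u
  else ![(0,0),(8,1),(2,1),(5,3),(3,3),(1,6),(8,7),(6,7),(6,2)] u

/-- orientation -/
def crI (a b c : ℤ × ℤ) : ℤ := (b.1 - a.1) * (c.2 - a.2) - (b.2 - a.2) * (c.1 - a.1)

/-- the points `x`, `y` are weakly on the same side of the line `uv`, not both on it -/
def sameSide (u v x y : ℤ × ℤ) : Bool :=
  decide (0 ≤ crI u v x * crI u v y) && decide (crI u v x ≠ 0 ∨ crI u v y ≠ 0)

/-- the eight tuples of the crossing -/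
def L8 : Finset (Fin 2 × Fin 9 × Fin 9 × Fin 9 × Fin 9) :=
  {(1, 0, 8, 1, 2), (1, 8, 0, 1, 2), (1, 0, 8, 2, 1), (1, 8, 0, 2, 1),
   (1, 1, 2, 0, 8), (1, 1, 2, 8, 0), (1, 2, 1, 0, 8), (1, 2, 1, 8, 0)}

theorem check : ∀ i : Fin 2, ∀ u v x y : Fin 9, u ≠ v → x ≠ y → col u v = i → col x y = i →
    ¬ (u = x ∧ v = y) → ¬ (u = y ∧ v = x) →
    sameSide (crd i u) (crd i v) (crd i x) (crd i y) = true ∨
    sameSide (crd i x) (crd i y) (crd i u) (crd i v) = true ∨
    (i, u, v, x, y) ∈ L8 := by decide +kernel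

theorem check_sym : ∀ u v : Fin 9, col u v = col v u := by decide +kernel

theorem check_inj : ∀ i : Fin 2, ∀ u v : Fin 9, crd i u = crd i v → u = v := by decide +kernel

theorem check_line : ∀ i : Fin 2, ∀ u v w : Fin 9, u ≠ v → col u v = i → w ≠ u → w ≠ v →
    crI (crd i u) (crd i v) (crd i w) ≠ 0 := by decide +kernel

/-- the positions of the vertices -/
noncomputable def pos (i : Fin 2) (u : Fin 9) : ℂ := ⟨(crd i u).1, (crd i u).2⟩

/-- the edges -/
noncomputable def arc (i : Fin 2) (u v : Fin 9) (t : ℝ) : ℂ :=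
  (1 - t : ℝ) • pos i u + t • pos i v

/-- orientation -/
def cr (a b c : ℂ) : ℝ := (b.re - a.re) * (c.im - a.im) - (b.im - a.im) * (c.re - a.re)

theorem cr_pos (i : Fin 2) (u v w : Fin 9) :
    cr (pos i u) (pos i v) (pos i w) = (crI (crd i u) (crd i v) (crd i w) : ℤ) := by
  simp only [cr, pos, crI]
  push_cast
  ring

theorem pos_inj (i : Fin 2) : Function.Injective (pos i) := by
  intro u v h
  apply check_inj i
  unfold pos at h
  rw [Complex.mk.injEq] at h
  exact Prod.ext (by exact_mod_cast h.1) (by exact_mod_cast h.2)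

theorem arc_re (i : Fin 2) (u v : Fin 9) (t : ℝ) :
    (arc i u v t).re = (1 - t) * (pos i u).re + t * (pos i v).re := by
  simp [arc]

theorem arc_im (i : Fin 2) (u v : Fin 9) (t : ℝ) :
    (arc i u v t).im = (1 - t) * (pos i u).im + t * (pos i v).im := by
  simp [arc]

theorem cr_self (i : Fin 2) (u v : Fin 9) (t : ℝ) :
    cr (pos i u) (pos i v) (arc i u v t) = 0 := by
  simp only [cr, arc_re, arc_im]; ring

theorem cr_arc (i : Fin 2) (u v x y : Fin 9) (t : ℝ) :
    cr (pos i u) (pos i v) (arc i x y t) =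
      (1 - t) * cr (pos i u) (pos i v) (pos i x) + t * cr (pos i u) (pos i v) (pos i y) := by
  simp only [cr, arc_re, arc_im]; ring

theorem no_meet {i : Fin 2} {u v x y : Fin 9}
    (h : sameSide (crd i u) (crd i v) (crd i x) (crd i y) = true) {s t : ℝ} (ht0 : 0 < t)
    (ht1 : t < 1) : arc i u v s ≠ arc i x y t := by
  intro he
  have h1 := cr_arc i u v x y t
  rw [← he, cr_self, cr_pos, cr_pos] at h1
  simp only [sameSide, Bool.and_eq_true, decide_eq_true_eq] at h
  obtain ⟨h2, h3⟩ := h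
  generalize crI (crd i u) (crd i v) (crd i x) = A at *
  generalize crI (crd i u) (crd i v) (crd i y) = B at *
  have h2' : (0 : ℝ) ≤ (A : ℝ) * B := by exact_mod_cast h2
  have hs : 0 < 1 - t := by linarith
  rcases h3 with h3 | h3
  · have hA : (A : ℝ) ≠ 0 := by exact_mod_cast h3
    have : (1 - t) * ((A : ℝ) * A) + t * (A * B) = 0 := by
      have : (A : ℝ) * ((1 - t) * (A : ℝ) + t * B) = 0 := by rw [← h1, mul_zero]
      linarith
    have h5 : 0 < (1 - t) * ((A : ℝ) * A) := mul_pos hs (mul_self_pos.2 hA)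
    have h6 : 0 ≤ t * ((A : ℝ) * B) := mul_nonneg ht0.le h2'
    linarith
  · have hB : (B : ℝ) ≠ 0 := by exact_mod_cast h3
    have : (1 - t) * ((A : ℝ) * B) + t * (B * B) = 0 := by
      have : (B : ℝ) * ((1 - t) * (A : ℝ) + t * B) = 0 := by rw [← h1, mul_zero]
      linarith
    have h5 : 0 < t * ((B : ℝ) * B) := mul_pos ht0 (mul_self_pos.2 hB)
    have h6 : 0 ≤ (1 - t) * ((A : ℝ) * B) := mul_nonneg hs.le h2'
    linarith

/-- the crossing point -/
def z0 : ℂ := ⟨3, 1⟩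

theorem meet_eq {i : Fin 2} {u v x y : Fin 9} (h : (i, u, v, x, y) ∈ L8) {s t : ℝ}
    (he : arc i u v s = arc i x y t) : arc i u v s = z0 := by
  have h1 := cr_self i u v s
  have h2 := cr_self i x y t
  rw [← he] at h2
  generalize arc i u v s = z at *
  clear he
  simp only [L8, Finset.mem_insert, Finset.mem_singleton, Prod.mk.injEq] at h
  rcases h with h | h | h | h | h | h | h | h <;>
  · obtain ⟨rfl, rfl, rfl, rfl, rfl⟩ := h
    simp [cr, pos, crd, -mul_eq_zero] at h1 h2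
    apply Complex.ext <;> simp only [z0] <;> linarith

theorem drawing : ((∀ u v : Fin 9, (⊤ : SimpleGraph (Fin 9)).Adj u v → col u v = col v u) ∧
    (∀ i : Fin 2, Function.Injective (pos i)) ∧
    (∀ i : Fin 2, ∀ u v : Fin 9, (⊤ : SimpleGraph (Fin 9)).Adj u v → col u v = i →
      ContinuousOn (arc i u v) (Set.Icc (0:ℝ) 1) ∧
      Set.InjOn (arc i u v) (Set.Icc (0:ℝ) 1) ∧
      arc i u v 0 = pos i u ∧ arc i u v 1 = pos i v ∧
      (∀ t : ℝ, 0 ≤ t → t ≤ 1 → arc i v u t = arc i u v (1 - t)) ∧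
      ∀ t : ℝ, 0 < t → t < 1 → ∀ w : Fin 9, arc i u v t ≠ pos i w)) := by
  refine ⟨fun u v _ => check_sym u v, pos_inj, ?_⟩
  intro i u v huv hc
  rw [SimpleGraph.top_adj] at huv
  have hne : pos i u ≠ pos i v := fun h => huv (pos_inj i h)
  have hinj : ∀ s t : ℝ, arc i u v s = arc i u v t → s = t := by
    intro s t h
    have h1 : (s - t) • (pos i v - pos i u) = 0 := by
      have : arc i u v s - arc i u v t = 0 := sub_eq_zero.2 h
      rw [← this]; unfold arc; module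
    rcases smul_eq_zero.1 h1 with h2 | h2
    · linarith
    · exact absurd (sub_eq_zero.1 h2).symm hne
  have h0 : arc i u v 0 = pos i u := by simp [arc]
  have h1 : arc i u v 1 = pos i v := by simp [arc]
  refine ⟨?_, ?_, h0, h1, ?_, ?_⟩
  · unfold arc
    fun_prop
  · intro s _ t _ h
    exact hinj s t h
  · intro t _ _
    unfold arc
    rw [sub_sub_cancel, add_comm]
  · intro t ht0 ht1 w he
    by_cases hwu : w = u
    · subst hwu
      rw [← h0] at he
      have := hinj _ _ he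
      linarith
    by_cases hwv : w = v
    · subst hwv
      rw [← h1] at he
      have := hinj _ _ he
      linarith
    have h2 := check_line i u v w huv hc hwu hwv
    have h3 := cr_self i u v t
    rw [he, cr_pos] at h3
    exact h2 (by exact_mod_cast h3)

theorem crossings :
    {x : Fin 2 × Fin 9 × Fin 9 × Fin 9 × Fin 9 × ℂ |
            (⊤ : SimpleGraph (Fin 9)).Adj x.2.1 x.2.2.1 ∧ (⊤ : SimpleGraph (Fin 9)).Adj x.2.2.2.1 x.2.2.2.2.1 ∧
            col x.2.1 x.2.2.1 = x.1 ∧ col x.2.2.2.1 x.2.2.2.2.1 = x.1 ∧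
            ¬ (x.2.1 = x.2.2.2.1 ∧ x.2.2.1 = x.2.2.2.2.1) ∧
            ¬ (x.2.1 = x.2.2.2.2.1 ∧ x.2.2.1 = x.2.2.2.1) ∧
            (∃ t : ℝ, 0 < t ∧ t < 1 ∧ arc x.1 x.2.1 x.2.2.1 t = x.2.2.2.2.2) ∧
            (∃ t : ℝ, 0 < t ∧ t < 1 ∧ arc x.1 x.2.2.2.1 x.2.2.2.2.1 t = x.2.2.2.2.2)} ⊆
      ((L8.image fun q => (q.1, q.2.1, q.2.2.1, q.2.2.2.1, q.2.2.2.2, z0) : Finset
        (Fin 2 × Fin 9 × Fin 9 × Fin 9 × Fin 9 × ℂ)) : Set _) := by
  classical
  rintro ⟨i, u, v, x, y, z⟩ ⟨h1, h2, h3, h4, h5, h6, ⟨s, hs0, hs1, hs⟩, ⟨t, ht0, ht1, ht⟩⟩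
  simp only at h1 h2 h3 h4 h5 h6 hs ht
  rw [SimpleGraph.top_adj] at h1 h2
  have he : arc i u v s = arc i x y t := hs.trans ht.symm
  rcases check i u v x y h1 h2 h3 h4 h5 h6 with h | h | h
  · exact absurd he (no_meet h ht0 ht1)
  · exact absurd he.symm (no_meet h hs0 hs1)
  · rw [Finset.mem_coe, Finset.mem_image]
    refine ⟨(i, u, v, x, y), h, ?_⟩
    simp only [Prod.mk.injEq, true_and]
    rw [← hs]
    exact (meet_eq h he).symm

end Pool.Agent.P8H53.K9
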