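import Mathlib
import Pool.Agent.P8H53.K9.Cert

/-!
# Self-complementary graphs on nine vertices: normal form of the complementing permutation
-/

set_option autoImplicit false

namespace Pool.Agent.P8H53.K9

open Equiv.Perm

theorem ms_eight {s : Multiset ℕ} (h : ∀ n ∈ s, n = 4 ∨ n = 8) (hs : s.sum = 8) :
    s = {8} ∨ s = {4, 4} := by
  by_cases h8 : 8 ∈ s
  · left
    obtain ⟨t, rfl⟩ := Multiset.exists_cons_of_mem h8
    rw [Multiset.sum_cons] at hs
    have ht : t.sum = 0 := by omega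
    have : t = 0 := by
      rw [Multiset.eq_zero_iff_forall_notMem]
      intro n hn
      have h1 := h n (Multiset.mem_cons_of_mem hn)
      have h2 := Multiset.single_le_sum (fun _ _ => Nat.zero_le _) n hn
      omega
    rw [this]; rfl
  · right
    have h4 : ∀ n ∈ s, n = 4 := by
      intro n hn
      rcases h n hn with h1 | h1
      · exact h1
      · rw [h1] at hn; exact absurd hn h8
    have h5 := Multiset.eq_replicate_card.2 h4
    rw [h5, Multiset.sum_replicate] at hs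
    rw [smul_eq_mul] at hs
    have h6 : s.card = 2 := by omega
    rw [h5, h6]; rfl

theorem classify (σ : Equiv.Perm (Fin 9)) (h1 : ∃ k, σ ^ (2 ^ k) = 1)
    (h2 : ∀ x, σ (σ x) = x → σ x = x) (h3 : ∀ x y, σ x = x → σ y = y → x = y) :
    σ.cycleType = {8} ∨ σ.cycleType = {4, 4} := by
  classical
  obtain ⟨k, hk⟩ := h1
  have hord : orderOf σ ∣ 2 ^ k := orderOf_dvd_of_pow_eq_one hk
  have hmem : ∀ n ∈ σ.cycleType, n = 4 ∨ n = 8 := by
    intro n hn
    have h4 : n ∣ 2 ^ k := (dvd_of_mem_cycleType hn).trans hord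
    have h5 : 2 ≤ n := two_le_of_mem_cycleType hn
    have h6 : n ≤ 9 := by
      have := le_card_support_of_mem_cycleType hn
      exact this.trans ((Finset.card_le_univ _).trans (by simp))
    have h7 : n ≠ 2 := by
      rintro rfl
      rw [mem_cycleType_iff] at hn
      obtain ⟨c, τ, hcτ, hd, hc, hcard⟩ := hn
      obtain ⟨x, y, hxy, hsw⟩ := card_support_eq_two.1 hcard
      have hx : c x = y := by rw [hsw]; simp
      have hy : c y = x := by rw [hsw]; simp
      have hτx : τ x = x := by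
        rcases hd x with h | h
        · rw [hx] at h; exact absurd h.symm hxy
        · exact h
      have hτy : τ y = y := by
        rcases hd y with h | h
        · rw [hy] at h; exact absurd h hxy
        · exact h
      have h8 : σ x = y := by rw [hcτ, mul_apply, hτx, hx]
      have h9 : σ y = x := by rw [hcτ, mul_apply, hτy, hy]
      have h10 := h2 x (by rw [h8, h9])
      rw [h8] at h10
      exact hxy h10.symm
    obtain ⟨j, hj, rfl⟩ := (Nat.dvd_prime_pow Nat.prime_two).1 h4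
    have hj3 : j ≤ 3 := by
      by_contra hcon
      have : 2 ^ 4 ≤ 2 ^ j := Nat.pow_le_pow_right (by norm_num) (by omega)
      omega
    interval_cases j
    · omega
    · omega
    · left; rfl
    · right; rfl
  apply ms_eight hmem
  rw [sum_cycleType]
  have hle : σ.support.card ≤ 9 := (Finset.card_le_univ _).trans (by simp)
  have hge : 8 ≤ σ.support.card := by
    by_contra hcon
    have h4 : 2 ≤ σ.supportᶜ.card := by
      rw [Finset.card_compl, Fintype.card_fin]; omega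
    obtain ⟨x, hx, y, hy, hxy⟩ := Finset.one_lt_card.1 h4
    rw [Finset.mem_compl, notMem_support] at hx hy
    exact hxy (h3 x y hx hy)
  have hdvd : 4 ∣ σ.support.card := by
    rw [← sum_cycleType]
    apply Multiset.dvd_sum
    intro n hn
    rcases hmem n hn with h | h <;> rw [h]
    norm_num
  omega

/-- an explicit permutation of `Fin 9` -/
def mkPerm (f g : Fin 9 → Fin 9) (h1 : ∀ x, g (f x) = x) (h2 : ∀ x, f (g x) = x) :
    Equiv.Perm (Fin 9) := ⟨f, g, h1, h2⟩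

/-- the permutation `(0 1 2 3 4 5 6 7)` -/
def sA : Equiv.Perm (Fin 9) :=
  mkPerm ![1, 2, 3, 4, 5, 6, 7, 0, 8] ![7, 0, 1, 2, 3, 4, 5, 6, 8] (by decide) (by decide)

/-- the permutation `(0 1 2 3)(4 5 6 7)` -/
def sB : Equiv.Perm (Fin 9) :=
  mkPerm ![1, 2, 3, 0, 5, 6, 7, 4, 8] ![3, 0, 1, 2, 7, 4, 5, 6, 8] (by decide) (by decide)

theorem sA_pow : sA ^ (2 ^ 3) = 1 := by
  apply Equiv.ext; decide

theorem sA_pow4 : sA ^ 4 ≠ 1 := by
  intro h
  have := congrArg (fun e => e 0) h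
  revert this; decide

theorem sB_pow : sB ^ (2 ^ 2) = 1 := by
  apply Equiv.ext; decide

theorem of_four {σ : Equiv.Perm (Fin 9)} (h : σ.cycleType = {4, 4}) : σ ^ 4 = 1 := by
  have h1 : orderOf σ = 4 := by rw [← lcm_cycleType, h]; decide
  rw [← h1]; exact pow_orderOf_eq_one σ

theorem of_eight {σ : Equiv.Perm (Fin 9)} (h : σ.cycleType = {8}) : σ ^ 4 ≠ 1 := by
  intro h4
  have h1 : orderOf σ = 8 := by rw [← lcm_cycleType, h]; decide
  have h2 := orderOf_dvd_of_pow_eq_one h4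
  rw [h1] at h2
  norm_num at h2

theorem sA_type : sA.cycleType = {8} := by
  rcases classify sA ⟨3, sA_pow⟩ (by decide) (by decide) with h | h
  · exact h
  · exact absurd (of_four h) sA_pow4

theorem sB_type : sB.cycleType = {4, 4} := by
  rcases classify sB ⟨2, sB_pow⟩ (by decide) (by decide) with h | h
  · exact absurd sB_pow (of_eight h)
  · exact h

section

variable {c : Fin 9 → Fin 9 → Bool} {σ : Equiv.Perm (Fin 9)}

theorem anti_pow (hσ : ∀ u v, u ≠ v → c (σ u) (σ v) = !c u v) (k : ℕ) :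
    ∀ u v, u ≠ v → c ((σ ^ k) u) ((σ ^ k) v) = xor (c u v) (k % 2 == 1) := by
  induction k with
  | zero => intro u v _; simp
  | succ k ih =>
    intro u v huv
    rw [pow_succ', mul_apply, mul_apply, hσ _ _ (fun h => huv ((σ ^ k).injective h)), ih u v huv]
    rcases Nat.mod_two_eq_zero_or_one k with h | h
    · have : (k + 1) % 2 = 1 := by omega
      rw [h, this]; cases c u v <;> rfl
    · have : (k + 1) % 2 = 0 := by omega
      rw [h, this]; cases c u v <;> rfl

theorem anti_class (hs : ∀ u v, u ≠ v → c u v = c v u)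
    (hσ : ∀ u v, u ≠ v → c (σ u) (σ v) = !c u v) (h1 : ∃ k, σ ^ (2 ^ k) = 1) :
    σ.cycleType = {8} ∨ σ.cycleType = {4, 4} := by
  apply classify σ h1
  · intro x hx
    by_contra hne
    have h2 := hσ x (σ x) (Ne.symm hne)
    rw [hx, hs _ _ hne] at h2
    cases h3 : c x (σ x) <;> rw [h3] at h2 <;> exact absurd h2 (by decide)
  · intro x y hx hy
    by_contra hne
    have h2 := hσ x y hne
    rw [hx, hy] at h2
    cases h3 : c x y <;> rw [h3] at h2 <;> exact absurd h2 (by decide)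

end

/-- two antisymmetric colourings that agree on representatives agree -/
theorem agree {f g : Fin 9 → Fin 9 → Bool} {s : Equiv.Perm (Fin 9)}
    (hfs : ∀ u v, u ≠ v → f u v = f v u) (hgs : ∀ u v, u ≠ v → g u v = g v u)
    (hf : ∀ u v, u ≠ v → f (s u) (s v) = !f u v) (hg : ∀ u v, u ≠ v → g (s u) (s v) = !g u v)
    (R : List (Fin 9 × Fin 9)) (hR : ∀ r ∈ R, r.1 ≠ r.2) (hfg : ∀ r ∈ R, f r.1 r.2 = g r.1 r.2)
    (htab : ∀ i j : Fin 9, i ≠ j → ∃ k < 8, ∃ r ∈ R,
      ((s ^ k) r.1 = i ∧ (s ^ k) r.2 = j) ∨ ((s ^ k) r.1 = j ∧ (s ^ k) r.2 = i)) :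
    ∀ i j, i ≠ j → f i j = g i j := by
  intro i j hij
  obtain ⟨k, _, r, hr, h | h⟩ := htab i j hij
  · rw [← h.1, ← h.2, anti_pow hf k _ _ (hR r hr), anti_pow hg k _ _ (hR r hr), hfg r hr]
  · rw [hfs i j hij, hgs i j hij, ← h.1, ← h.2, anti_pow hf k _ _ (hR r hr),
      anti_pow hg k _ _ (hR r hr), hfg r hr]

/-- representatives -/
def RA : List (Fin 9 × Fin 9) := [(0, 1), (0, 2), (0, 3), (0, 4), (8, 0)]

/-- representatives -/
def RB : List (Fin 9 × Fin 9) :=
  [(0, 1), (0, 2), (4, 5), (4, 6), (0, 4), (0, 5), (0, 6), (0, 7), (8, 0), (8, 4)]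

theorem tabA : ∀ i j : Fin 9, i ≠ j → ∃ k < 8, ∃ r ∈ RA,
      ((sA ^ k) r.1 = i ∧ (sA ^ k) r.2 = j) ∨ ((sA ^ k) r.1 = j ∧ (sA ^ k) r.2 = i) := by
  decide +kernel

theorem tabB : ∀ i j : Fin 9, i ≠ j → ∃ k < 8, ∃ r ∈ RB,
      ((sB ^ k) r.1 = i ∧ (sB ^ k) r.2 = j) ∨ ((sB ^ k) r.1 = j ∧ (sB ^ k) r.2 = i) := by
  decide +kernel

theorem adjA_sym : ∀ b < 32, ∀ u v : Fin 9, u ≠ v → adjA b u v = adjA b v u := by
  decide +kernel

theorem adjA_anti : ∀ b < 32, ∀ u v : Fin 9, u ≠ v → adjA b (sA u) (sA v) = !adjA b u v := by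
  decide +kernel

theorem adjB_sym : ∀ b < 1024, ∀ u v : Fin 9, u ≠ v → adjB b u v = adjB b v u := by
  decide +kernel

theorem adjB_anti : ∀ b < 1024, ∀ u v : Fin 9, u ≠ v → adjB b (sB u) (sB v) = !adjB b u v := by
  decide +kernel

/-- the number with the given binary digits -/
def code (l : List Bool) : ℕ := l.foldr (fun x n => x.toNat + 2 * n) 0

theorem codeA : ∀ x0 x1 x2 x3 x4 : Bool,
    code [x0, x1, x2, x3, x4] < 32 ∧
    RA.map (fun r => adjA (code [x0, x1, x2, x3, x4]) r.1 r.2) = [x0, x1, x2, x3, x4] := by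
  decide +kernel

theorem codeB : ∀ x0 x1 x2 x3 x4 x5 x6 x7 x8 x9 : Bool,
    code [x0, x1, x2, x3, x4, x5, x6, x7, x8, x9] < 1024 ∧
    RB.map (fun r => adjB (code [x0, x1, x2, x3, x4, x5, x6, x7, x8, x9]) r.1 r.2) =
      [x0, x1, x2, x3, x4, x5, x6, x7, x8, x9] := by
  decide +kernel

theorem normal_form {c : Fin 9 → Fin 9 → Bool} {σ : Equiv.Perm (Fin 9)}
    (hs : ∀ u v, u ≠ v → c u v = c v u) (hσ : ∀ u v, u ≠ v → c (σ u) (σ v) = !c u v) :
    ∃ (τ : Equiv.Perm (Fin 9)) (H : ℕ → ℕ → Bool), (∃ P, ok H P = true) ∧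
      ∀ i j : Fin 9, i ≠ j → c (τ i) (τ j) = H i j := by
  -- reduction to order a power of two
  obtain ⟨k, m, hm, hkm⟩ := Nat.exists_eq_two_pow_mul_odd (orderOf_pos σ).ne'
  have hpow : (σ ^ m) ^ (2 ^ k) = 1 := by
    rw [← pow_mul, mul_comm m, ← hkm, pow_orderOf_eq_one]
  have hσm : ∀ u v, u ≠ v → c ((σ ^ m) u) ((σ ^ m) v) = !c u v := by
    intro u v huv
    rw [anti_pow hσ m u v huv, Nat.odd_iff.1 hm]
    cases c u v <;> rfl
  generalize hρ : σ ^ m = ρ at hpow hσm
  have hcl := anti_class hs hσm ⟨k, hpow⟩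
  have transport : ∀ s : Equiv.Perm (Fin 9), IsConj ρ s → ∃ τ : Equiv.Perm (Fin 9),
      ∀ u v, u ≠ v → c (τ (s u)) (τ (s v)) = !c (τ u) (τ v) := by
    intro s hconj
    obtain ⟨e, he⟩ := isConj_iff.1 hconj
    refine ⟨e⁻¹, fun u v huv => ?_⟩
    have h1 : ∀ u, e⁻¹ (s u) = ρ (e⁻¹ u) := by
      intro u
      rw [← he]
      simp [mul_apply]
    rw [h1, h1]
    exact hσm _ _ (fun h => huv (e⁻¹.injective h))
  rcases hcl with h8 | h44
  · obtain ⟨τ, hτ⟩ := transport sA (isConj_iff_cycleType_eq.2 (h8.trans sA_type.symm))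
    obtain ⟨hb, hmap⟩ := codeA (c (τ 0) (τ 1)) (c (τ 0) (τ 2)) (c (τ 0) (τ 3)) (c (τ 0) (τ 4))
      (c (τ 8) (τ 0))
    generalize code [c (τ 0) (τ 1), c (τ 0) (τ 2), c (τ 0) (τ 3), c (τ 0) (τ 4),
      c (τ 8) (τ 0)] = b at hb hmap
    refine ⟨τ, adjA b, ⟨_, checkA b hb⟩, ?_⟩
    apply agree (f := fun i j => c (τ i) (τ j)) (g := fun i j => adjA b i j) (s := sA)
      (fun u v huv => hs _ _ (fun h => huv (τ.injective h))) (adjA_sym b hb) hτ (adjA_anti b hb)
      RA (by decide) _ tabA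
    simp only [RA, List.map_cons, List.map_nil, List.cons.injEq, and_true] at hmap
    obtain ⟨g0, g1, g2, g3, g4⟩ := hmap
    intro r hr
    simp only [RA, List.mem_cons, List.not_mem_nil, or_false] at hr
    rcases hr with rfl | rfl | rfl | rfl | rfl
    · exact g0.symm
    · exact g1.symm
    · exact g2.symm
    · exact g3.symm
    · exact g4.symm
  · obtain ⟨τ, hτ⟩ := transport sB (isConj_iff_cycleType_eq.2 (h44.trans sB_type.symm))
    obtain ⟨hb, hmap⟩ := codeB (c (τ 0) (τ 1)) (c (τ 0) (τ 2)) (c (τ 4) (τ 5)) (c (τ 4) (τ 6))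
      (c (τ 0) (τ 4)) (c (τ 0) (τ 5)) (c (τ 0) (τ 6)) (c (τ 0) (τ 7)) (c (τ 8) (τ 0))
      (c (τ 8) (τ 4))
    generalize code [c (τ 0) (τ 1), c (τ 0) (τ 2), c (τ 4) (τ 5), c (τ 4) (τ 6),
      c (τ 0) (τ 4), c (τ 0) (τ 5), c (τ 0) (τ 6), c (τ 0) (τ 7), c (τ 8) (τ 0),
      c (τ 8) (τ 4)] = b at hb hmap
    refine ⟨τ, adjB b, ⟨_, checkB b hb⟩, ?_⟩
    apply agree (f := fun i j => c (τ i) (τ j)) (g := fun i j => adjB b i j) (s := sB)
      (fun u v huv => hs _ _ (fun h => huv (τ.injective h))) (adjB_sym b hb) hτ (adjB_anti b hb)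
      RB (by decide) _ tabB
    simp only [RB, List.map_cons, List.map_nil, List.cons.injEq, and_true] at hmap
    obtain ⟨g0, g1, g2, g3, g4, g5, g6, g7, g8, g9⟩ := hmap
    intro r hr
    simp only [RB, List.mem_cons, List.not_mem_nil, or_false] at hr
    rcases hr with rfl | rfl | rfl | rfl | rfl | rfl | rfl | rfl | rfl | rfl
    · exact g0.symm
    · exact g1.symm
    · exact g2.symm
    · exact g3.symm
    · exact g4.symm
    · exact g5.symm
    · exact g6.symm
    · exact g7.symm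
    · exact g8.symm
    · exact g9.symm

end Pool.Agent.P8H53.K9
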