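import Mathlib
import Pool.Agent.P8H53.K9.Cert
import Pool.Agent.Helper448.VanKampen
import Pool.Agent.H650R3.Task571D

/-!
# Soundness of the certificates
-/

set_option autoImplicit false

namespace Pool.Agent.P8H53.K9

open Set

/-- the union of the arcs of a walk -/
def spine (A : ℕ → ℕ → Set ℂ) : List ℕ → Set ℂ
  | [] => ∅
  | [_] => ∅
  | (a :: b :: l) => A a b ∪ spine A (b :: l)

theorem spine_cons_cons (A : ℕ → ℕ → Set ℂ) (a b : ℕ) (l : List ℕ) :
    spine A (a :: b :: l) = A a b ∪ spine A (b :: l) := rfl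

theorem chain_cons_cons (H : ℕ → ℕ → Bool) (a b : ℕ) (l : List ℕ) :
    chainOk H (a :: b :: l) = (H a b && chainOk H (b :: l)) := rfl

section

variable (H : ℕ → ℕ → Bool) (p : ℕ → ℂ) (A : ℕ → ℕ → Set ℂ)

theorem joined_walk (hJ : ∀ u v, u < 9 → v < 9 → H u v = true → JoinedIn (A u v) (p u) (p v)) :
    ∀ (l : List ℕ) (a b : ℕ), chainOk H (a :: b :: l) = true →
      (∀ x ∈ a :: b :: l, x < 9) →
      JoinedIn (spine A (a :: b :: l)) (p a) (p ((b :: l).getLast (by simp)))
  | [], a, b => by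
    intro h h9
    rw [chain_cons_cons, Bool.and_eq_true] at h
    rw [spine_cons_cons]
    exact (hJ a b (h9 a (by simp)) (h9 b (by simp)) h.1).mono subset_union_left
  | (c :: l), a, b => by
    intro h h9
    rw [chain_cons_cons, Bool.and_eq_true] at h
    rw [spine_cons_cons, List.getLast_cons (by simp)]
    have h1 := (hJ a b (h9 a (by simp)) (h9 b (by simp)) h.1)
    have h2 := joined_walk hJ l b c h.2 (fun x hx => h9 x (List.mem_cons_of_mem _ hx))
    exact (h1.mono subset_union_left).trans (h2.mono subset_union_right)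

/-- points of the spine lie on an edge -/
theorem mem_spine : ∀ (w : List ℕ), chainOk H w = true → (∀ x ∈ w, x < 9) → ∀ z ∈ spine A w,
    ∃ a b, a ∈ w ∧ b ∈ w ∧ H a b = true ∧ z ∈ A a b
  | [] => by intro _ _ z hz; exact hz.elim
  | [_] => by intro _ _ z hz; exact hz.elim
  | (a :: b :: l) => by
    intro h h9 z hz
    rw [chain_cons_cons, Bool.and_eq_true] at h
    rw [spine_cons_cons] at hz
    rcases hz with hz | hz
    · exact ⟨a, b, by simp, by simp, h.1, hz⟩
    · obtain ⟨x, y, hx, hy, hH, hz⟩ := mem_spine (b :: l) h.2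
        (fun x hx => h9 x (List.mem_cons_of_mem _ hx)) z hz
      exact ⟨x, y, List.mem_cons_of_mem _ hx, List.mem_cons_of_mem _ hy, hH, hz⟩

theorem disj_spec {w w' : List ℕ} (h : disj w w' = true) : ∀ x ∈ w, x ∉ w' := by
  intro x hx hx'
  unfold disj at h
  rw [List.all_eq_true] at h
  have := h x hx
  simp [hx'] at this

variable (hJ : ∀ u v, u < 9 → v < 9 → H u v = true → JoinedIn (A u v) (p u) (p v))
  (hD : ∀ u v x y, u < 9 → v < 9 → x < 9 → y < 9 → H u v = true → H x y = true →
    u ≠ x → u ≠ y → v ≠ x → v ≠ y → Disjoint (A u v) (A x y))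

include hJ in
theorem walk_joined {u v : ℕ} {w : List ℕ} (h : walkOk H u v w = true) :
    JoinedIn (spine A w) (p u) (p v) := by
  unfold walkOk at h
  simp only [Bool.and_eq_true, beq_iff_eq, decide_eq_true_eq, List.all_eq_true] at h
  obtain ⟨⟨⟨⟨h1, h2⟩, h3⟩, h4⟩, h5⟩ := h
  match w, h1, h2, h3, h4, h5 with
  | a :: b :: l, h1, h2, _, h4, h5 =>
    have e1 : a = u := by simpa using h1
    have e2 : (b :: l).getLast (by simp) = v := by
      rw [List.getLast?_cons_cons] at h2
      rw [List.getLast?_eq_some_getLast (by simp)] at h2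
      simpa using h2
    have := joined_walk H p A hJ l a b h4 h5
    rw [e1, e2] at this
    rw [e1]; exact this

theorem walk_data {u v : ℕ} {w : List ℕ} (h : walkOk H u v w = true) :
    chainOk H w = true ∧ ∀ x ∈ w, x < 9 := by
  unfold walkOk at h
  simp only [Bool.and_eq_true, beq_iff_eq, decide_eq_true_eq, List.all_eq_true] at h
  exact ⟨h.1.2, h.2⟩

include hD in
theorem walk_disjoint {u v x y : ℕ} {w w' : List ℕ} (h : walkOk H u v w = true)
    (h' : walkOk H x y w' = true) (hd : disj w w' = true) :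
    Disjoint (spine A w) (spine A w') := by
  obtain ⟨h1, h2⟩ := walk_data H h
  obtain ⟨h3, h4⟩ := walk_data H h'
  have h5 := disj_spec hd
  rw [Set.disjoint_left]
  intro z hz hz'
  obtain ⟨a, b, ha, hb, hab, hz⟩ := mem_spine H A w h1 h2 z hz
  obtain ⟨c, d, hc, hd', hcd, hz'⟩ := mem_spine H A w' h3 h4 z hz'
  refine Set.disjoint_left.1 (hD a b c d (h2 a ha) (h2 b hb) (h4 c hc) (h4 d hd') hab hcd
    ?_ ?_ ?_ ?_) hz hz'
  · rintro rfl; exact h5 _ ha hc
  · rintro rfl; exact h5 _ ha hd'
  · rintro rfl; exact h5 _ hb hc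
  · rintro rfl; exact h5 _ hb hd'

theorem ok33_spec {ws : List (List ℕ)} (h : ok33 H ws = true) :
    (∀ i < 3, ∀ j < 3, walkOk H ((wk ws (3 * i)).headD 0) ((wk ws j).getLastD 0)
      (wk ws (3 * i + j)) = true) ∧
    (∀ i < 3, ∀ j < 3, ∀ k < 3, ∀ l < 3, i ≠ k → j ≠ l →
      disj (wk ws (3 * i + j)) (wk ws (3 * k + l)) = true) := by
  unfold ok33 at h
  simp only [List.all_eq_true, List.mem_range, Bool.and_eq_true, Bool.or_eq_true, beq_iff_eq] at h
  refine ⟨fun i hi j hj => (h i hi j hj).1, fun i hi j hj k hk l hl h1 h2 => ?_⟩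
  rcases (h i hi j hj).2 k hk l hl with (h3 | h3) | h3
  · exact absurd h3 h1
  · exact absurd h3 h2
  · exact h3

include hJ hD in
theorem no_k33 {ws : List (List ℕ)} (h : ok33 H ws = true) : False := by
  obtain ⟨h1, h2⟩ := ok33_spec H h
  apply Pool.Agent.H650R3.T571D.k33_joined
    (fun a => if a.val < 3 then p ((wk ws (3 * a.val)).headD 0)
      else p ((wk ws (a.val - 3)).getLastD 0))
    (fun a b => spine A (wk ws (3 * a.val + (b.val - 3))))
  · rintro a b ⟨ha, hb⟩
    have ha' : a.val < 3 := ha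
    have hb' : 3 ≤ b.val := hb
    simp only [ha', if_true]
    rw [if_neg (not_lt.2 hb')]
    exact walk_joined H p A hJ (h1 a.val ha' (b.val - 3) (by have := b.2; omega))
  · rintro a b c d ⟨ha, hb⟩ ⟨hc, hd⟩ hac hbd
    have ha' : a.val < 3 := ha
    have hb' : 3 ≤ b.val := hb
    have hc' : c.val < 3 := hc
    have hd' : 3 ≤ d.val := hd
    have e1 : a.val ≠ c.val := fun e => hac (Fin.ext e)
    have e2 : b.val - 3 ≠ d.val - 3 := fun e => hbd (Fin.ext (by omega))
    have h5 := b.2
    have h6 := d.2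
    exact walk_disjoint H A hD (h1 a.val ha' (b.val - 3) (by omega))
      (h1 c.val hc' (d.val - 3) (by omega))
      (h2 a.val ha' (b.val - 3) (by omega) c.val hc' (d.val - 3) (by omega) e1 e2)

theorem ok5_spec {ws : List (List ℕ)} (h : ok5 H ws = true) :
    (∀ a < 5, ∀ b < 5, a < b → walkOk H (root5 ws a) (root5 ws b) (wk ws (num5 a b)) = true) ∧
    (∀ a < 5, ∀ b < 5, a < b → ∀ c < 5, ∀ d < 5, c < d → a ≠ c → a ≠ d → b ≠ c → b ≠ d →
      disj (wk ws (num5 a b)) (wk ws (num5 c d)) = true) := by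
  unfold ok5 at h
  simp only [List.all_eq_true, List.mem_range, Bool.and_eq_true, Bool.or_eq_true, beq_iff_eq,
    Bool.not_eq_true', decide_eq_false_iff_not] at h
  refine ⟨fun a ha b hb hab => ?_, fun a ha b hb hab c hc d hd hcd h1 h2 h3 h4 => ?_⟩
  · rcases h a ha b hb with h5 | h5
    · exact absurd hab h5
    · exact h5.1
  · rcases h a ha b hb with h5 | h5
    · exact absurd hab h5
    · rcases h5.2 c hc d hd with ((((h6 | h6) | h6) | h6) | h6) | h6
      · exact absurd hcd h6
      · exact absurd h6 h1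
      · exact absurd h6 h2
      · exact absurd h6 h3
      · exact absurd h6 h4
      · exact h6

include hJ hD in
theorem no_k5 {ws : List (List ℕ)} (h : ok5 H ws = true) : False := by
  obtain ⟨h1, h2⟩ := ok5_spec H h
  apply Pool.Agent.Helper448.VanKampen.k5_joined
    (fun a => p (root5 ws a.val))
    (fun a b => spine A (wk ws (num5 a.val b.val)))
  · intro a b hab
    exact walk_joined H p A hJ (h1 a.val a.2 b.val b.2 hab)
  · intro a b c d hab hcd e1 e2 e3 e4
    have e1' : a.val ≠ c.val := fun e => e1 (Fin.ext e)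
    have e2' : a.val ≠ d.val := fun e => e2 (Fin.ext e)
    have e3' : b.val ≠ c.val := fun e => e3 (Fin.ext e)
    have e4' : b.val ≠ d.val := fun e => e4 (Fin.ext e)
    exact walk_disjoint H A hD (h1 a.val a.2 b.val b.2 hab) (h1 c.val c.2 d.val d.2 hcd)
      (h2 a.val a.2 b.val b.2 hab c.val c.2 d.val d.2 hcd e1' e2' e3' e4')

end

/-- no drawing without crossings of independent edges -/
theorem no_ok {H : ℕ → ℕ → Bool} (p : ℕ → ℂ) (A : ℕ → ℕ → Set ℂ)
    (hJ : ∀ u v, u < 9 → v < 9 → u ≠ v → H u v = true → JoinedIn (A u v) (p u) (p v))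
    (hD : ∀ u v x y, u < 9 → v < 9 → x < 9 → y < 9 → u ≠ v → x ≠ y → H u v = true → H x y = true →
      u ≠ x → u ≠ y → v ≠ x → v ≠ y → Disjoint (A u v) (A x y))
    {P : Bool × List (List ℕ)} (h : ok H P = true) : False := by
  have hst : ∀ a b, strict H a b = true → a ≠ b ∧ H a b = true := by
    intro a b hab
    unfold strict at hab
    rw [Bool.and_eq_true, bne_iff_ne] at hab
    exact hab
  have hJ' : ∀ u v, u < 9 → v < 9 → strict H u v = true → JoinedIn (A u v) (p u) (p v) :=
    fun u v hu hv huv => hJ u v hu hv (hst u v huv).1 (hst u v huv).2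
  have hD' : ∀ u v x y, u < 9 → v < 9 → x < 9 → y < 9 → strict H u v = true →
      strict H x y = true → u ≠ x → u ≠ y → v ≠ x → v ≠ y → Disjoint (A u v) (A x y) :=
    fun u v x y hu hv hx hy huv hxy => hD u v x y hu hv hx hy (hst u v huv).1 (hst x y hxy).1
      (hst u v huv).2 (hst x y hxy).2
  unfold ok at h
  split_ifs at h with h1
  · exact no_k5 (strict H) p A hJ' hD' h
  · exact no_k33 (strict H) p A hJ' hD' h

end Pool.Agent.P8H53.K9
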