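import Mathlib
import Pool.Agent.P8H53.K9.Perm
import Pool.Agent.P8H53.K9.Topo

/-!
# A self-complementary graph on nine vertices has no drawing without crossings
-/

set_option autoImplicit false

namespace Pool.Agent.P8H53.K9

open Set

theorem joined_arc {γ : ℝ → ℂ} (h : ContinuousOn γ (Icc (0 : ℝ) 1)) :
    JoinedIn (γ '' Icc (0 : ℝ) 1) (γ 0) (γ 1) := by
  have hc : IsPathConnected (Icc (0 : ℝ) 1) :=
    (convex_Icc 0 1).isPathConnected ⟨0, by simp⟩
  have h2 := hc.image' h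
  exact h2.joinedIn _ ⟨0, by simp, rfl⟩ _ ⟨1, by simp, rfl⟩

theorem no_plane {c : Fin 9 → Fin 9 → Bool} {σ : Equiv.Perm (Fin 9)}
    (hs : ∀ u v, u ≠ v → c u v = c v u) (hσ : ∀ u v, u ≠ v → c (σ u) (σ v) = !c u v)
    (p : Fin 9 → ℂ) (γ : Fin 9 → Fin 9 → ℝ → ℂ) (hp : Function.Injective p)
    (hγ : ∀ u v, u ≠ v → c u v = true → ContinuousOn (γ u v) (Icc (0:ℝ) 1) ∧
      γ u v 0 = p u ∧ γ u v 1 = p v ∧ ∀ t : ℝ, 0 < t → t < 1 → ∀ w, γ u v t ≠ p w)
    (hX : ∀ u v x y, u ≠ v → x ≠ y → c u v = true → c x y = true → u ≠ x → u ≠ y → v ≠ x →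
      v ≠ y → ∀ s t : ℝ, 0 < s → s < 1 → 0 < t → t < 1 → γ u v s ≠ γ x y t) : False := by
  obtain ⟨τ, H, ⟨P, hP⟩, hH⟩ := normal_form hs hσ
  let f : ℕ → Fin 9 := fun n => if h : n < 9 then τ ⟨n, h⟩ else 0
  have hf : ∀ n (h : n < 9), f n = τ ⟨n, h⟩ := fun n h => dif_pos h
  have hfinj : ∀ m n, m < 9 → n < 9 → m ≠ n → f m ≠ f n := by
    intro m n hm hn hne h
    rw [hf m hm, hf n hn] at h
    exact hne (by simpa using τ.injective h)
  have hc : ∀ m n, m < 9 → n < 9 → m ≠ n → H m n = true → c (f m) (f n) = true := by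
    intro m n hm hn hne h
    rw [hf m hm, hf n hn, hH _ _ (fun e => hne (by simpa using e))]
    exact h
  -- a point of an arc is a vertex or an interior point
  have hpt : ∀ u v, u ≠ v → c u v = true → ∀ z ∈ γ u v '' Icc (0:ℝ) 1,
      (z = p u ∨ z = p v) ∨ ∃ t : ℝ, 0 < t ∧ t < 1 ∧ γ u v t = z := by
    rintro u v huv hcuv z ⟨t, ⟨h0, h1⟩, rfl⟩
    obtain ⟨_, g0, g1, _⟩ := hγ u v huv hcuv
    rcases h0.eq_or_lt with h0 | h0
    · left; left; rw [← h0, g0]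
    rcases h1.eq_or_lt with h1 | h1
    · left; right; rw [h1, g1]
    · right; exact ⟨t, h0, h1, rfl⟩
  refine no_ok (H := H) (fun n => p (f n)) (fun m n => γ (f m) (f n) '' Icc (0:ℝ) 1) ?_ ?_ hP
  · intro u v hu hv huv hH'
    obtain ⟨g, g0, g1, _⟩ := hγ _ _ (hfinj u v hu hv huv) (hc u v hu hv huv hH')
    have := joined_arc g
    rw [g0, g1] at this
    exact this
  · intro u v x y hu hv hx hy huv hxy hH1 hH2 h1 h2 h3 h4
    rw [Set.disjoint_left]
    intro z hz hz'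
    have huv' := hfinj u v hu hv huv
    have hxy' := hfinj x y hx hy hxy
    have h1' := hfinj u x hu hx h1
    have h2' := hfinj u y hu hy h2
    have h3' := hfinj v x hv hx h3
    have h4' := hfinj v y hv hy h4
    have c1 := hc u v hu hv huv hH1
    have c2 := hc x y hx hy hxy hH2
    rcases hpt _ _ huv' c1 z hz with (e | e) | ⟨s, s0, s1, hs⟩ <;>
      rcases hpt _ _ hxy' c2 z hz' with (e' | e') | ⟨t, t0, t1, ht⟩
    · exact h1' (hp (e.symm.trans e'))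
    · exact h2' (hp (e.symm.trans e'))
    · exact (hγ _ _ hxy' c2).2.2.2 t t0 t1 _ (ht.trans e)
    · exact h3' (hp (e.symm.trans e'))
    · exact h4' (hp (e.symm.trans e'))
    · exact (hγ _ _ hxy' c2).2.2.2 t t0 t1 _ (ht.trans e)
    · exact (hγ _ _ huv' c1).2.2.2 s s0 s1 _ (hs.trans e')
    · exact (hγ _ _ huv' c1).2.2.2 s s0 s1 _ (hs.trans e')
    · exact hX _ _ _ _ huv' hxy' c1 c2 h1' h2' h3' h4' s t s0 s1 t0 t1 (hs.trans ht.symm)

end Pool.Agent.P8H53.K9
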